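import Mathlib

/-! Formal Euler products as analytic Euler products. -/

set_option autoImplicit false

namespace Pool.Agent.W189.NF

open Complex Filter Topology ArithmeticFunction Finset

/-- the power series with the absolute values of the coefficients -/
noncomputable def absps (f : PowerSeries ℤ) : PowerSeries ℤ := PowerSeries.mk fun k => |f.coeff k|

theorem coeff_absps (f : PowerSeries ℤ) (k : ℕ) : (absps f).coeff k = |f.coeff k| := by
  unfold absps; rw [PowerSeries.coeff_mk]

theorem absps_abs (f : PowerSeries ℤ) (k : ℕ) : |(absps f).coeff k| = |f.coeff k| := by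
  rw [coeff_absps, abs_abs]

theorem absps_const {f : PowerSeries ℤ} (hf : f.constantCoeff = 1) :
    (absps f).constantCoeff = 1 := by
  rw [← PowerSeries.coeff_zero_eq_constantCoeff, coeff_absps, PowerSeries.coeff_zero_eq_constantCoeff,
    hf, abs_one]

/-- the arithmetic function as a function with complex values -/
noncomputable def toC (a : ArithmeticFunction ℤ) (n : ℕ) : ℂ := ((a n : ℤ) : ℂ)

theorem toC_mul (a b : ArithmeticFunction ℤ) {s : ℂ} (ha : LSeriesSummable (toC a) s)
    (hb : LSeriesSummable (toC b) s) :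
    LSeriesSummable (toC (a * b)) s ∧ LSeries (toC (a * b)) s = LSeries (toC a) s * LSeries (toC b) s := by
  have e : ∀ c : ArithmeticFunction ℤ, toC c = fun n => ((c : ArithmeticFunction ℂ)) n := by
    intro c
    funext n
    rw [ArithmeticFunction.intCoe_apply]
    rfl
  rw [e a] at ha ⊢
  rw [e b] at hb ⊢
  rw [e (a * b)]
  rw [ArithmeticFunction.intCoe_mul]
  exact ⟨ArithmeticFunction.LSeriesSummable_mul ha hb, ArithmeticFunction.LSeries_mul' ha hb⟩

theorem toC_one (s : ℂ) : LSeriesSummable (toC 1) s ∧ LSeries (toC 1) s = 1 := by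
  have e : toC 1 = fun n => if n = 1 then 1 else 0 := by
    funext n
    unfold toC
    rw [ArithmeticFunction.one_apply]
    split_ifs <;> simp
  have h1 : toC 1 = LSeries.delta := by
    rw [e]
    funext n
    rfl
  constructor
  · rw [h1]
    have h2 : LSeries.term LSeries.delta s = fun n => if n = 1 then 1 else 0 := by
      funext n
      rw [LSeries.term_delta]
    unfold LSeriesSummable
    rw [h2]
    exact summable_of_ne_finset_zero (s := {1}) (fun n hn => by
      rw [if_neg (by simpa using hn)])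
  · rw [h1, LSeries_delta]
    rfl

theorem toC_prod {ι : Type} (g : ι → ArithmeticFunction ℤ) {s : ℂ} (S : Finset ι)
    (hg : ∀ i, LSeriesSummable (toC (g i)) s) :
    LSeriesSummable (toC (∏ i ∈ S, g i)) s ∧
      LSeries (toC (∏ i ∈ S, g i)) s = ∏ i ∈ S, LSeries (toC (g i)) s := by
  classical
  induction S using Finset.induction_on with
  | empty =>
    simp only [Finset.prod_empty]
    exact toC_one s
  | insert i S hi ih =>
    rw [Finset.prod_insert hi, Finset.prod_insert hi]
    obtain ⟨h1, h2⟩ := toC_mul (g i) (∏ j ∈ S, g j) (hg i) ih.1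
    exact ⟨h1, by rw [h2, ih.2]⟩

/-- the Dirichlet series of a power series in `q^{-s}` -/
theorem toC_ofPowerSeries {q : ℕ} (hq : 2 ≤ q) (f : PowerSeries ℤ) {s : ℂ}
    (hs : Summable fun k : ℕ => |(f.coeff k : ℝ)| * (q : ℝ) ^ (-(s.re * k))) :
    HasSum (LSeries.term (toC (ofPowerSeries q f)) s)
      (∑' k : ℕ, (f.coeff k : ℂ) * ((q : ℂ) ^ (-s)) ^ k) := by
  have hq1 : 1 < q := by omega
  have hq0 : (q : ℂ) ≠ 0 := by exact_mod_cast (by omega : q ≠ 0)
  have hqr : (0 : ℝ) < q := by exact_mod_cast (by omega : 0 < q)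
  have hinj : Function.Injective fun k : ℕ => q ^ k := Nat.pow_right_injective hq1
  have h1 : (LSeries.term (toC (ofPowerSeries q f)) s) ∘ (fun k : ℕ => q ^ k) =
      fun k : ℕ => (f.coeff k : ℂ) * ((q : ℂ) ^ (-s)) ^ k := by
    funext k
    simp only [Function.comp_apply]
    rw [LSeries.term_of_ne_zero (pow_ne_zero k (by omega))]
    unfold toC
    rw [ofPowerSeries_apply_pow hq1]
    have h2 : ((q ^ k : ℕ) : ℂ) ^ s = ((q : ℂ) ^ s) ^ k := by
      push_cast
      rw [← Complex.natCast_cpow_natCast_mul, Complex.cpow_nat_mul]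
    rw [h2, div_eq_mul_inv, Complex.cpow_neg, inv_pow]
  have h3 : ∀ x ∉ Set.range (fun k : ℕ => q ^ k), LSeries.term (toC (ofPowerSeries q f)) s x = 0 := by
    intro x hx
    by_cases hx0 : x = 0
    · rw [hx0, LSeries.term_zero]
    · rw [LSeries.term_of_ne_zero hx0]
      unfold toC
      rw [ofPowerSeries_apply hq1, Function.extend_apply' _ _ _ (by
        rintro ⟨k, hk⟩
        exact hx ⟨k, hk⟩)]
      simp
  rw [← hinj.hasSum_iff h3, h1]
  refine (Summable.of_norm_bounded hs fun k => ?_).hasSum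
  rw [norm_mul, norm_pow, Complex.norm_intCast, Complex.norm_natCast_cpow_of_pos (by omega)]
  apply le_of_eq
  congr 1
  rw [Complex.neg_re, ← Real.rpow_natCast, ← Real.rpow_mul hqr.le]
  congr 1
  ring

theorem prod_nonneg' {ι : Type} {h : ι → ArithmeticFunction ℤ} (hh : ∀ i n, 0 ≤ h i n)
    (S : Finset ι) (n : ℕ) : 0 ≤ (∏ i ∈ S, h i) n := by
  classical
  induction S using Finset.induction_on generalizing n with
  | empty =>
    rw [Finset.prod_empty, ArithmeticFunction.one_apply]
    split_ifs <;> simp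
  | insert i S hi ih =>
    rw [Finset.prod_insert hi, ArithmeticFunction.mul_apply]
    exact Finset.sum_nonneg fun x _ => mul_nonneg (hh i _) (ih _)

theorem prod_one' {ι : Type} {h : ι → ArithmeticFunction ℤ} (h1 : ∀ i, h i 1 = 1)
    (S : Finset ι) : (∏ i ∈ S, h i) 1 = 1 := by
  classical
  induction S using Finset.induction_on with
  | empty => simp
  | insert i S hi ih =>
    rw [Finset.prod_insert hi, ArithmeticFunction.mul_apply]
    simp [h1, ih]

theorem prod_mono' {ι : Type} {h : ι → ArithmeticFunction ℤ} (hh : ∀ i n, 0 ≤ h i n)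
    (h1 : ∀ i, h i 1 = 1) {S S' : Finset ι} (hS : S ⊆ S') (n : ℕ) :
    (∏ i ∈ S, h i) n ≤ (∏ i ∈ S', h i) n := by
  classical
  by_cases hn : n = 0
  · rw [hn]; simp
  rw [← Finset.prod_sdiff hS, ArithmeticFunction.mul_apply]
  have hmem : (1, n) ∈ n.divisorsAntidiagonal := by
    rw [Nat.mem_divisorsAntidiagonal]
    exact ⟨by simp, hn⟩
  have h2 := Finset.single_le_sum (f := fun x : ℕ × ℕ => (∏ i ∈ S' \ S, h i) x.1 * (∏ i ∈ S, h i) x.2)
    (fun x _ => mul_nonneg (prod_nonneg' hh _ _) (prod_nonneg' hh _ _)) hmem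
  simp only at h2
  rw [prod_one' h1, one_mul] at h2
  exact h2

theorem abs_prod_le {ι : Type} {g h : ι → ArithmeticFunction ℤ} (hh : ∀ i n, |g i n| ≤ h i n)
    (S : Finset ι) (n : ℕ) : |(∏ i ∈ S, g i) n| ≤ (∏ i ∈ S, h i) n := by
  classical
  have hh0 : ∀ i n, 0 ≤ h i n := fun i n => (abs_nonneg _).trans (hh i n)
  induction S using Finset.induction_on generalizing n with
  | empty =>
    rw [Finset.prod_empty, Finset.prod_empty, ArithmeticFunction.one_apply]
    split_ifs <;> simp
  | insert i S hi ih =>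
    rw [Finset.prod_insert hi, Finset.prod_insert hi, ArithmeticFunction.mul_apply,
      ArithmeticFunction.mul_apply]
    refine (Finset.abs_sum_le_sum_abs _ _).trans (Finset.sum_le_sum fun x _ => ?_)
    rw [abs_mul]
    exact mul_le_mul (hh i _) (ih _) (abs_nonneg _) (hh0 i _)

/-- the terms of the Dirichlet series at a real point -/
theorem term_real (a : ArithmeticFunction ℤ) (σ : ℝ) (n : ℕ) :
    LSeries.term (toC a) σ n = ((if n = 0 then 0 else (a n : ℝ) / (n : ℝ) ^ σ : ℝ) : ℂ) := by
  by_cases hn : n = 0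
  · rw [hn, LSeries.term_zero]; simp
  · rw [LSeries.term_of_ne_zero hn, if_neg hn]
    unfold toC
    push_cast
    rw [Complex.ofReal_cpow (Nat.cast_nonneg n)]
    simp

/-- hypotheses on a family of power series -/
structure FData {ι : Type} (q : ι → ℕ) (f : ι → PowerSeries ℤ) (σ : ℝ) : Prop where
  two_le : ∀ i, 2 ≤ q i
  north : Northcott q
  const : ∀ i, (f i).constantCoeff = 1
  sum : Summable fun x : ι × ℕ =>
    |((f x.1).coeff (x.2 + 1) : ℝ)| * (q x.1 : ℝ) ^ (-(σ * (x.2 + 1)))

variable {ι : Type} {q : ι → ℕ} {f : ι → PowerSeries ℤ} {σ : ℝ}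

theorem FData.abs (D : FData q f σ) : FData q (fun i => absps (f i)) σ where
  two_le := D.two_le
  north := D.north
  const := fun i => absps_const (D.const i)
  sum := by
    refine D.sum.congr fun x => ?_
    rw [coeff_absps]
    push_cast
    rw [abs_abs]

theorem FData.single (D : FData q f σ) (i : ι) {τ : ℝ} (hτ : σ ≤ τ) :
    Summable fun k : ℕ => |((f i).coeff k : ℝ)| * (q i : ℝ) ^ (-(τ * k)) := by
  have h1 : Summable fun k : ℕ => |((f i).coeff (k + 1) : ℝ)| * (q i : ℝ) ^ (-(σ * (k + 1))) :=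
    D.sum.comp_injective (i := fun k : ℕ => (i, k)) (fun a b h => by simpa using h)
  rw [← summable_nat_add_iff 1]
  refine Summable.of_nonneg_of_le (fun k => by positivity) (fun k => ?_) h1
  have hq : (1 : ℝ) ≤ q i := by exact_mod_cast (by have := D.two_le i; omega : 1 ≤ q i)
  push_cast
  refine mul_le_mul_of_nonneg_left ?_ (abs_nonneg _)
  refine Real.rpow_le_rpow_of_exponent_le hq ?_
  have : (0 : ℝ) ≤ k + 1 := by positivity
  nlinarith

theorem FData.single' (D : FData q f σ) (i : ι) {s : ℂ} (hs : σ ≤ s.re) :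
    HasSum (LSeries.term (toC (ofPowerSeries (q i) (f i))) s)
      (∑' k : ℕ, ((f i).coeff k : ℂ) * ((q i : ℂ) ^ (-s)) ^ k) :=
  toC_ofPowerSeries (D.two_le i) (f i) (D.single i hs)

/-- the sum of the non-trivial terms -/
noncomputable def tail (q : ι → ℕ) (f : ι → PowerSeries ℤ) (σ : ℝ) (i : ι) : ℝ :=
  ∑' k : ℕ, |((f i).coeff (k + 1) : ℝ)| * (q i : ℝ) ^ (-(σ * (k + 1)))

theorem FData.tail_summable (D : FData q f σ) : Summable (tail q f σ) :=
  (D.sum.prod : _)

theorem tail_nonneg (q : ι → ℕ) (f : ι → PowerSeries ℤ) (σ : ℝ) (i : ι) : 0 ≤ tail q f σ i :=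
  tsum_nonneg fun k => by positivity

theorem FData.abs_LSeries (D : FData q f σ) (i : ι) :
    LSeries (toC (ofPowerSeries (q i) (absps (f i)))) σ = ((1 + tail q f σ i : ℝ) : ℂ) := by
  have h1 := (D.abs.single' i (s := (σ : ℂ)) (by simp)).tsum_eq
  have h2 : LSeries (toC (ofPowerSeries (q i) (absps (f i)))) σ =
      ∑' k : ℕ, ((absps (f i)).coeff k : ℂ) * ((q i : ℂ) ^ (-(σ : ℂ))) ^ k := h1
  rw [h2]
  have hq0 : (0 : ℝ) ≤ q i := Nat.cast_nonneg _
  have h3 : ∀ k : ℕ, ((absps (f i)).coeff k : ℂ) * ((q i : ℂ) ^ (-(σ : ℂ))) ^ k =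
      ((|((f i).coeff k : ℝ)| * (q i : ℝ) ^ (-(σ * k)) : ℝ) : ℂ) := by
    intro k
    rw [coeff_absps]
    have h4 : ((q i : ℂ) ^ (-(σ : ℂ))) = (((q i : ℝ) ^ (-σ) : ℝ) : ℂ) := by
      rw [Complex.ofReal_cpow hq0]
      simp
    rw [h4, ← Complex.ofReal_pow, ← Real.rpow_natCast, ← Real.rpow_mul hq0,
      show -σ * (k : ℝ) = -(σ * k) by ring, ← Int.cast_abs, Complex.ofReal_mul,
      Complex.ofReal_intCast]
  simp only [h3]
  rw [← Complex.ofReal_tsum]
  congr 1
  have h5 := D.single i le_rfl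
  rw [h5.tsum_eq_zero_add]
  congr 1
  · have h6 : (f i).coeff 0 = 1 := by
      rw [PowerSeries.coeff_zero_eq_constantCoeff]
      exact D.const i
    rw [h6]
    simp
  · unfold tail
    push_cast
    rfl

/-- the bound for the partial products -/
theorem FData.bound (D : FData q f σ) (S : Finset ι) (N : Finset ℕ) :
    ∑ n ∈ N, ‖LSeries.term (toC (∏ i ∈ S, ofPowerSeries (q i) (absps (f i)))) σ n‖ ≤
      Real.exp (∑' i, tail q f σ i) := by
  set h : ι → ArithmeticFunction ℤ := fun i => ofPowerSeries (q i) (absps (f i)) with hh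
  have hg : ∀ i, LSeriesSummable (toC (h i)) σ := fun i =>
    (D.abs.single' i (s := (σ : ℂ)) (by simp)).summable
  obtain ⟨h1, h2⟩ := toC_prod h S hg
  have hnn : ∀ i n, 0 ≤ h i n := by
    intro i n
    rw [hh]
    have hq1 : 1 < q i := by have := D.two_le i; omega
    simp only
    rw [ofPowerSeries_apply hq1]
    by_cases hn : ∃ k, q i ^ k = n
    · obtain ⟨k, rfl⟩ := hn
      rw [(Nat.pow_right_injective hq1).extend_apply, coeff_absps]
      exact abs_nonneg _
    · rw [Function.extend_apply' _ _ _ hn]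
      simp
  have hterm : ∀ n, LSeries.term (toC (∏ i ∈ S, h i)) σ n =
      ((‖LSeries.term (toC (∏ i ∈ S, h i)) σ n‖ : ℝ) : ℂ) := by
    intro n
    rw [term_real, Complex.norm_real, Real.norm_eq_abs, abs_of_nonneg]
    split_ifs
    · exact le_rfl
    · have : (0 : ℝ) ≤ ((∏ i ∈ S, h i) n : ℝ) := by exact_mod_cast prod_nonneg' hnn S n
      positivity
  have h3 : ∑ n ∈ N, ‖LSeries.term (toC (∏ i ∈ S, h i)) σ n‖ ≤
      ∑' n, ‖LSeries.term (toC (∏ i ∈ S, h i)) σ n‖ :=
    h1.norm.sum_le_tsum N (fun n _ => norm_nonneg _)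
  have h4 : ((∑' n, ‖LSeries.term (toC (∏ i ∈ S, h i)) σ n‖ : ℝ) : ℂ) =
      LSeries (toC (∏ i ∈ S, h i)) σ := by
    rw [Complex.ofReal_tsum]
    unfold LSeries
    exact tsum_congr fun n => (hterm n).symm
  have h5 : LSeries (toC (∏ i ∈ S, h i)) σ = ((∏ i ∈ S, (1 + tail q f σ i) : ℝ) : ℂ) := by
    rw [h2]
    push_cast
    refine Finset.prod_congr rfl fun i _ => ?_
    rw [hh]
    have := D.abs_LSeries i
    push_cast at this
    exact this
  have h6 : ∑' n, ‖LSeries.term (toC (∏ i ∈ S, h i)) σ n‖ = ∏ i ∈ S, (1 + tail q f σ i) := by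
    rw [h5] at h4
    exact_mod_cast h4
  rw [h6] at h3
  refine h3.trans ?_
  calc ∏ i ∈ S, (1 + tail q f σ i) ≤ ∏ i ∈ S, Real.exp (tail q f σ i) := by
        refine Finset.prod_le_prod (fun i _ => by have := tail_nonneg q f σ i; linarith) fun i _ => ?_
        have := Real.add_one_le_exp (tail q f σ i)
        linarith
    _ = Real.exp (∑ i ∈ S, tail q f σ i) := (Real.exp_sum S _).symm
    _ ≤ _ := by
      apply Real.exp_le_exp.2
      exact D.tail_summable.sum_le_tsum S (fun i _ => tail_nonneg q f σ i)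

/-- **formal Euler products are analytic Euler products** -/
theorem FData.main (D : FData q f σ) {s : ℂ} (hs : σ ≤ s.re) :
    LSeriesSummable (toC (eulerProduct fun i => ofPowerSeries (q i) (f i))) s ∧
    HasProd (fun i => ∑' k : ℕ, ((f i).coeff k : ℂ) * ((q i : ℂ) ^ (-s)) ^ k)
      (LSeries (toC (eulerProduct fun i => ofPowerSeries (q i) (f i))) s) := by
  classical
  have := D.north
  set g : ι → ArithmeticFunction ℤ := fun i => ofPowerSeries (q i) (f i) with hg
  set h : ι → ArithmeticFunction ℤ := fun i => ofPowerSeries (q i) (absps (f i)) with hh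
  have habs : ∀ i n, |g i n| ≤ h i n := by
    intro i n
    have hq1 : 1 < q i := by have := D.two_le i; omega
    simp only [hg, hh]
    rw [ofPowerSeries_apply hq1, ofPowerSeries_apply hq1]
    by_cases hn : ∃ k, q i ^ k = n
    · obtain ⟨k, rfl⟩ := hn
      rw [(Nat.pow_right_injective hq1).extend_apply, (Nat.pow_right_injective hq1).extend_apply,
        coeff_absps]
    · rw [Function.extend_apply' _ _ _ hn, Function.extend_apply' _ _ _ hn]
      simp
  have hnn : ∀ i n, 0 ≤ h i n := fun i n => (abs_nonneg _).trans (habs i n)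
  have hone : ∀ i, h i 1 = 1 := fun i => by
    simp only [hh]
    rw [ofPowerSeries_apply_one]
    exact absps_const (D.const i)
  set H : ArithmeticFunction ℤ := eulerProduct h with hH
  set G : ArithmeticFunction ℤ := eulerProduct g with hG
  have hHev : ∀ n, ∀ᶠ S in atTop, (∏ i ∈ S, h i) n = H n := fun n =>
    tendsTo_eulerProduct_ofPowerSeries q (fun i => absps (f i)) (fun i => absps_const (D.const i)) n
  have hGev : ∀ n, ∀ᶠ S in atTop, (∏ i ∈ S, g i) n = G n := fun n =>
    tendsTo_eulerProduct_ofPowerSeries q f D.const n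
  have hle : ∀ (S : Finset ι) (n : ℕ), (∏ i ∈ S, h i) n ≤ H n := by
    intro S n
    obtain ⟨S', h1, h2⟩ := ((hHev n).and (eventually_ge_atTop S)).exists
    rw [← h1]
    exact prod_mono' hnn hone h2 n
  have hH0 : ∀ n, 0 ≤ H n := fun n => (prod_nonneg' hnn ∅ n).trans (hle ∅ n)
  -- summability of the majorant
  have hHsum : Summable fun n => ‖LSeries.term (toC H) σ n‖ := by
    refine summable_of_sum_le (c := Real.exp (∑' i, tail q f σ i)) (fun n => norm_nonneg _) fun N => ?_
    have h1 : ∀ᶠ S in atTop, ∀ n ∈ N, (∏ i ∈ S, h i) n = H n :=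
      (Filter.eventually_all_finset N).2 fun n _ => hHev n
    obtain ⟨S, h2⟩ := h1.exists
    refine le_trans (le_of_eq ?_) (D.bound S N)
    refine Finset.sum_congr rfl fun n hn => ?_
    rw [term_real, term_real]
    rw [← h2 n hn]
  have hnorm : ∀ (a : ArithmeticFunction ℤ) (n : ℕ), |a n| ≤ H n →
      ‖LSeries.term (toC a) s n‖ ≤ ‖LSeries.term (toC H) σ n‖ := by
    intro a n ha
    have h1 : ‖LSeries.term (toC a) s n‖ ≤ ‖LSeries.term (toC H) s n‖ := by
      refine LSeries.norm_term_le s ?_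
      unfold toC
      rw [Complex.norm_intCast, Complex.norm_intCast]
      have h2 : |H n| = H n := abs_of_nonneg (hH0 n)
      have h3 : |a n| ≤ |H n| := by rw [h2]; exact ha
      exact_mod_cast h3
    refine h1.trans ?_
    exact LSeries.norm_term_le_of_re_le_re (toC H) (s := (σ : ℂ)) (s' := s) (by simpa using hs) n
  have hGH : ∀ n, |G n| ≤ H n := by
    intro n
    obtain ⟨S, h1⟩ := (hGev n).exists
    rw [← h1]
    exact (abs_prod_le habs S n).trans (hle S n)
  have hGsum : LSeriesSummable (toC G) s :=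
    Summable.of_norm_bounded hHsum fun n => hnorm G n (hGH n)
  refine ⟨hGsum, ?_⟩
  have hlim : Tendsto (fun S : Finset ι => LSeries (toC (∏ i ∈ S, g i)) s) atTop
      (𝓝 (LSeries (toC G) s)) := by
    unfold LSeries
    refine tendsto_tsum_of_dominated_convergence hHsum (fun n => ?_) (Eventually.of_forall fun S n =>
      hnorm _ n ((abs_prod_le habs S n).trans (hle S n)))
    refine tendsto_const_nhds.congr' ?_
    filter_upwards [hGev n] with S h1
    by_cases hn : n = 0
    · rw [hn, LSeries.term_zero, LSeries.term_zero]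
    · rw [LSeries.term_of_ne_zero hn, LSeries.term_of_ne_zero hn]
      unfold toC
      rw [h1]
  have hprod : ∀ S : Finset ι, LSeries (toC (∏ i ∈ S, g i)) s =
      ∏ i ∈ S, ∑' k : ℕ, ((f i).coeff k : ℂ) * ((q i : ℂ) ^ (-s)) ^ k := by
    intro S
    rw [(toC_prod g S (fun i => (D.single' i hs).summable)).2]
    exact Finset.prod_congr rfl fun i _ => (D.single' i hs).tsum_eq
  simp only [hprod] at hlim
  rw [HasProd]
  simpa using hlim

end Pool.Agent.W189.NF
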