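import Mathlib

/-! Local polynomials of Weierstrass curves: form, bounds, power series inverse. -/

set_option autoImplicit false

namespace Pool.Agent.W189.NF

open Polynomial

/-- the number of solutions of a Weierstrass equation over a finite field -/
theorem equation_card_le {k : Type} [Field k] [Finite k] (V : WeierstrassCurve k) :
    Nat.card {Q : k × k // V.toAffine.Equation Q.1 Q.2} ≤ 2 * Nat.card k := by
  classical
  have : Fintype k := Fintype.ofFinite k
  have h1 : Nat.card {Q : k × k // V.toAffine.Equation Q.1 Q.2} =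
      ∑ x : k, (Finset.univ.filter fun y : k => V.toAffine.Equation x y).card := by
    have e : {Q : k × k // V.toAffine.Equation Q.1 Q.2} ≃
        Σ x : k, {y : k // V.toAffine.Equation x y} :=
      { toFun := fun Q => ⟨Q.1.1, ⟨Q.1.2, Q.2⟩⟩
        invFun := fun R => ⟨(R.1, R.2.1), R.2.2⟩
        left_inv := fun _ => rfl
        right_inv := fun _ => rfl }
    rw [Nat.card_congr e, Nat.card_eq_fintype_card, Fintype.card_sigma]
    refine Finset.sum_congr rfl fun x _ => ?_
    rw [Fintype.card_subtype]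
  rw [h1]
  have h2 : ∀ x : k, (Finset.univ.filter fun y : k => V.toAffine.Equation x y).card ≤ 2 := by
    intro x
    by_cases hne : (Finset.univ.filter fun y : k => V.toAffine.Equation x y).Nonempty
    · obtain ⟨y₁, hy₁⟩ := hne
      have hy₁' := (Finset.mem_filter.1 hy₁).2
      rw [WeierstrassCurve.Affine.equation_iff] at hy₁'
      have hsub : (Finset.univ.filter fun y : k => V.toAffine.Equation x y) ⊆
          {y₁, -(V.a₁ * x + V.a₃) - y₁} := by
        intro y hy
        have hy' := (Finset.mem_filter.1 hy).2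
        rw [WeierstrassCurve.Affine.equation_iff] at hy'
        have h3 : (y - y₁) * (y + y₁ + (V.a₁ * x + V.a₃)) = 0 := by
          linear_combination hy' - hy₁'
        rcases mul_eq_zero.1 h3 with h | h
        · rw [sub_eq_zero] at h
          simp [h]
        · have : y = -(V.a₁ * x + V.a₃) - y₁ := by linear_combination h
          simp [this]
      exact (Finset.card_le_card hsub).trans (Finset.card_le_two)
    · rw [Finset.not_nonempty_iff_eq_empty] at hne
      rw [hne]; simp
  calc ∑ x : k, (Finset.univ.filter fun y : k => V.toAffine.Equation x y).card ≤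
      ∑ _x : k, 2 := Finset.sum_le_sum fun x _ => h2 x
    _ = 2 * Nat.card k := by
      rw [Finset.sum_const, Finset.card_univ, Nat.card_eq_fintype_card]
      simp [mul_comm]

/-- points as an option type -/
def ptMap {k : Type} [Field k] (V : WeierstrassCurve k) :
    V.toAffine.Point → Option {Q : k × k // V.toAffine.Equation Q.1 Q.2}
  | .zero => none
  | .some x y h => some ⟨(x, y), h.1⟩

theorem ptMap_injective {k : Type} [Field k] (V : WeierstrassCurve k) :
    Function.Injective (ptMap V) := by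
  intro P Q h
  cases P with
  | zero =>
    cases Q with
    | zero => rfl
    | some x y hxy => simp [ptMap] at h
  | some x y hxy =>
    cases Q with
    | zero => simp [ptMap] at h
    | some x' y' hxy' =>
      simp only [ptMap, Option.some.injEq, Subtype.mk.injEq, Prod.mk.injEq] at h
      obtain ⟨rfl, rfl⟩ := h
      rfl

theorem point_card {k : Type} [Field k] [Finite k] (V : WeierstrassCurve k) :
    1 ≤ Nat.card V.toAffine.Point ∧ Nat.card V.toAffine.Point ≤ 2 * Nat.card k + 1 := by
  have hfin : Finite V.toAffine.Point := Finite.of_injective _ (ptMap_injective V)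
  constructor
  · have : Nonempty V.toAffine.Point := ⟨.zero⟩
    exact Nat.card_pos
  · have h1 := Nat.card_le_card_of_injective _ (ptMap_injective V)
    have h2 : Nat.card (Option {Q : k × k // V.toAffine.Equation Q.1 Q.2}) =
        Nat.card {Q : k × k // V.toAffine.Equation Q.1 Q.2} + 1 := Finite.card_option
    have h3 := equation_card_le V
    omega

section Local

variable (R : Type) [CommRing R] [IsDomain R] [IsDiscreteValuationRing R] {L : Type}
  [Field L] [Algebra R L] [IsFractionRing R L] (W : WeierstrassCurve L)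

open Classical in
/-- the linear coefficient of the local polynomial (with a minus sign) -/
noncomputable def aLoc : ℤ :=
  if (W.minimal R).HasGoodReduction R then
    (Nat.card (IsLocalRing.ResidueField R) : ℤ) + 1 -
      (Nat.card ((W.minimal R).reduction R).toAffine.Point)
  else if (W.minimal R).HasSplitMultiplicativeReduction R then 1
  else if (W.minimal R).HasMultiplicativeReduction R then -1
  else 0

open Classical in
/-- the quadratic coefficient of the local polynomial -/
noncomputable def eLoc : ℤ :=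
  if (W.minimal R).HasGoodReduction R then (Nat.card (IsLocalRing.ResidueField R) : ℤ) else 0

theorem localPolynomial_eq :
    W.localPolynomial R = 1 - C (aLoc R W) * X + C (eLoc R W) * X ^ 2 := by
  unfold WeierstrassCurve.localPolynomial aLoc eLoc
  split_ifs
  · rfl
  · simp
  · simp
  · simp

theorem aLoc_le [Finite (IsLocalRing.ResidueField R)] :
    |aLoc R W| ≤ (Nat.card (IsLocalRing.ResidueField R) : ℤ) := by
  have hq : 1 ≤ Nat.card (IsLocalRing.ResidueField R) := Nat.card_pos
  have hq' : (1 : ℤ) ≤ (Nat.card (IsLocalRing.ResidueField R) : ℤ) := by exact_mod_cast hq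
  unfold aLoc
  split_ifs
  · obtain ⟨h1, h2⟩ := point_card ((W.minimal R).reduction R)
    have h1' : (1 : ℤ) ≤ (Nat.card ((W.minimal R).reduction R).toAffine.Point : ℤ) := by
      exact_mod_cast h1
    have h2' : (Nat.card ((W.minimal R).reduction R).toAffine.Point : ℤ) ≤
        2 * (Nat.card (IsLocalRing.ResidueField R) : ℤ) + 1 := by exact_mod_cast h2
    rw [abs_le]
    constructor <;> linarith
  · simpa using hq'
  · simpa using hq'
  · simp

theorem eLoc_le : |eLoc R W| ≤ (Nat.card (IsLocalRing.ResidueField R) : ℤ) := by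
  unfold eLoc
  split_ifs <;> simp

end Local

/-- the recursion for the inverse power series -/
theorem inv_coeff (a e : ℤ) :
    let f := PowerSeries.invOfUnit ((1 - C a * X + C e * X ^ 2 : ℤ[X]) : PowerSeries ℤ) 1
    f.coeff 0 = 1 ∧ f.coeff 1 = a ∧ ∀ k, f.coeff (k + 2) = a * f.coeff (k + 1) - e * f.coeff k := by
  intro f
  have hf : (1 - PowerSeries.C a * PowerSeries.X + PowerSeries.C e * PowerSeries.X ^ 2) * f = 1 := by
    have h1 := PowerSeries.mul_invOfUnit ((1 - C a * X + C e * X ^ 2 : ℤ[X]) : PowerSeries ℤ) 1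
      (by simp)
    have h2 : ((1 - C a * X + C e * X ^ 2 : ℤ[X]) : PowerSeries ℤ) =
        1 - PowerSeries.C a * PowerSeries.X + PowerSeries.C e * PowerSeries.X ^ 2 := by
      push_cast
      rfl
    rw [← h2]
    exact h1
  have hf' : f - PowerSeries.C a * (PowerSeries.X * f) +
      PowerSeries.C e * (PowerSeries.X * (PowerSeries.X * f)) = 1 := by
    rw [← hf]
    ring
  have h0 := congrArg (PowerSeries.coeff 0) hf'
  have h1 := congrArg (PowerSeries.coeff 1) hf'
  have hk : ∀ k, PowerSeries.coeff (k + 2) f - a * PowerSeries.coeff (k + 1) f +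
      e * PowerSeries.coeff k f = 0 := by
    intro k
    have h2 := congrArg (PowerSeries.coeff (k + 2)) hf'
    rw [map_add, map_sub, PowerSeries.coeff_C_mul, PowerSeries.coeff_C_mul,
      PowerSeries.coeff_succ_X_mul, PowerSeries.coeff_succ_X_mul, PowerSeries.coeff_succ_X_mul,
      PowerSeries.coeff_one, if_neg (by omega)] at h2
    exact h2
  rw [map_add, map_sub, PowerSeries.coeff_C_mul, PowerSeries.coeff_C_mul,
    PowerSeries.coeff_zero_X_mul, PowerSeries.coeff_zero_X_mul, PowerSeries.coeff_one,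
    if_pos rfl] at h0
  rw [map_add, map_sub, PowerSeries.coeff_C_mul, PowerSeries.coeff_C_mul,
    show (1 : ℕ) = 0 + 1 from rfl, PowerSeries.coeff_succ_X_mul, PowerSeries.coeff_succ_X_mul,
    PowerSeries.coeff_zero_X_mul, PowerSeries.coeff_one, if_neg (by omega)] at h1
  have e0 : PowerSeries.coeff 0 f = 1 := by linarith
  refine ⟨e0, ?_, fun k => by have := hk k; linarith⟩
  rw [e0] at h1
  have : PowerSeries.coeff (0 + 1) f = a := by linarith
  exact this

theorem inv_bound {q : ℕ} {a e : ℤ} (ha : |a| ≤ q) (he : |e| ≤ q) (k : ℕ) :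
    |(PowerSeries.invOfUnit ((1 - C a * X + C e * X ^ 2 : ℤ[X]) : PowerSeries ℤ) 1).coeff k| ≤
      ((q : ℤ) + 1) ^ k := by
  obtain ⟨h0, h1, h2⟩ := inv_coeff a e
  have hq : (0 : ℤ) ≤ q := by positivity
  induction k using Nat.twoStepInduction with
  | zero => rw [h0]; simp
  | one => rw [h1, pow_one]; linarith
  | more n ih1 ih2 =>
    rw [h2 n]
    refine (abs_sub _ _).trans ?_
    rw [abs_mul, abs_mul]
    calc _ ≤ (q : ℤ) * ((q : ℤ) + 1) ^ (n + 1) + (q : ℤ) * ((q : ℤ) + 1) ^ n := by gcongr
      _ ≤ ((q : ℤ) + 1) ^ (n + 2) := by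
        have h3 : (0 : ℤ) ≤ ((q : ℤ) + 1) ^ n := by positivity
        rw [pow_succ, pow_succ, pow_succ]
        nlinarith

theorem rec_sum {a e : ℤ} {c : ℕ → ℤ} (h0 : c 0 = 1) (h1 : c 1 = a)
    (h2 : ∀ k, c (k + 2) = a * c (k + 1) - e * c k) {x : ℂ}
    (hs : Summable fun k : ℕ => (c k : ℂ) * x ^ k) :
    ∑' k : ℕ, (c k : ℂ) * x ^ k = (1 - a * x + e * x ^ 2)⁻¹ := by
  have hs1 : Summable fun k : ℕ => (c (k + 1) : ℂ) * x ^ (k + 1) :=
    (summable_nat_add_iff (f := fun k : ℕ => (c k : ℂ) * x ^ k) 1).2 hs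
  have hs2 : Summable fun k : ℕ => (c (k + 2) : ℂ) * x ^ (k + 2) :=
    (summable_nat_add_iff (f := fun k : ℕ => (c k : ℂ) * x ^ k) 2).2 hs
  have e1 : ∑' k : ℕ, (c k : ℂ) * x ^ k = 1 + ∑' k : ℕ, (c (k + 1) : ℂ) * x ^ (k + 1) := by
    rw [hs.tsum_eq_zero_add, h0]
    simp
  have e2 : ∑' k : ℕ, (c (k + 1) : ℂ) * x ^ (k + 1) =
      a * x + ∑' k : ℕ, (c (k + 2) : ℂ) * x ^ (k + 2) := by
    rw [hs1.tsum_eq_zero_add, zero_add, h1]
    simp
  have e3 : ∑' k : ℕ, (c (k + 2) : ℂ) * x ^ (k + 2) =
      a * x * (∑' k : ℕ, (c (k + 1) : ℂ) * x ^ (k + 1)) - e * x ^ 2 * ∑' k : ℕ, (c k : ℂ) * x ^ k := by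
    rw [← tsum_mul_left, ← tsum_mul_left, ← (hs1.mul_left _).tsum_sub (hs.mul_left _)]
    refine tsum_congr fun k => ?_
    rw [h2 k]
    push_cast
    ring
  generalize ∑' k : ℕ, (c k : ℂ) * x ^ k = S at *
  generalize ∑' k : ℕ, (c (k + 1) : ℂ) * x ^ (k + 1) = S1 at *
  generalize ∑' k : ℕ, (c (k + 2) : ℂ) * x ^ (k + 2) = S2 at *
  have e4 : S * (1 - a * x + e * x ^ 2) = 1 := by
    linear_combination (1 - (a : ℂ) * x) * e1 + e2 + e3
  exact eq_inv_of_mul_eq_one_left e4

end Pool.Agent.W189.NF
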