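import Pool.Agent.W189.NF.Dirichlet
import Pool.Agent.W189.NF.Residue
import Pool.Agent.W189.NF.LocalPoly

/-! The Euler product of the `L`-series of a Weierstrass curve over a number field. -/

set_option autoImplicit false

namespace Pool.Agent.W189.NF

open IsDedekindDomain NumberField IsLocalRing ArithmeticFunction
open Pool.Agent.H921R2.TatePole (nm two_le_nm nm_summable)

variable {K : Type} [Field K] [NumberField K] (E : WeierstrassCurve K)

/-- `a_v = q_v + 1 - #Ẽ(k_v)` at the places of good reduction (for a minimal model at `v`), and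
`1, -1, 0` at places of split multiplicative, other multiplicative, additive reduction -/
noncomputable def aV (v : HeightOneSpectrum (𝓞 K)) : ℤ :=
  aLoc (v.adicCompletionIntegers K) (E.baseChange (v.adicCompletion K))

/-- `q_v` at the places of good reduction and `0` at the others -/
noncomputable def eV (v : HeightOneSpectrum (𝓞 K)) : ℤ :=
  eLoc (v.adicCompletionIntegers K) (E.baseChange (v.adicCompletion K))

theorem card_res (v : HeightOneSpectrum (𝓞 K)) :
    Nat.card (ResidueField (v.adicCompletionIntegers K)) = nm v := card_residue v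

theorem finite_res (v : HeightOneSpectrum (𝓞 K)) :
    Finite (ResidueField (v.adicCompletionIntegers K)) := by
  refine Nat.finite_of_card_ne_zero ?_
  rw [card_res]
  have := two_le_nm v
  omega

theorem aV_le (v : HeightOneSpectrum (𝓞 K)) : |aV E v| ≤ (nm v : ℤ) := by
  have := finite_res v
  rw [← card_res]
  exact aLoc_le _ _

theorem eV_le (v : HeightOneSpectrum (𝓞 K)) : |eV E v| ≤ (nm v : ℤ) := by
  rw [← card_res]
  exact eLoc_le _ _

theorem northcott_nm : Northcott (fun v : HeightOneSpectrum (𝓞 K) => nm v) := by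
  refine ⟨fun b => ?_⟩
  have h1 : Set.Finite {I : Ideal (𝓞 K) | Ideal.absNorm I ≤ b} := Ideal.finite_setOfPred_absNorm_le b
  refine (h1.preimage (f := fun v : HeightOneSpectrum (𝓞 K) => v.asIdeal)
    (fun v _ w _ h => HeightOneSpectrum.ext h)).subset ?_
  intro v hv
  exact hv

/-- the local power series -/
noncomputable def locPS (v : HeightOneSpectrum (𝓞 K)) : PowerSeries ℤ :=
  (E.baseChange (v.adicCompletion K)).localPowerSeries (v.adicCompletionIntegers K)

theorem locPS_eq (v : HeightOneSpectrum (𝓞 K)) : locPS E v = PowerSeries.invOfUnit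
    ((1 - Polynomial.C (aV E v) * Polynomial.X + Polynomial.C (eV E v) * Polynomial.X ^ 2 :
      Polynomial ℤ) : PowerSeries ℤ) 1 := by
  unfold locPS WeierstrassCurve.localPowerSeries aV eV
  rw [localPolynomial_eq]

theorem LFunction_eq : E.LFunction = eulerProduct fun v : HeightOneSpectrum (𝓞 K) =>
    ofPowerSeries (nm v) (locPS E v) := by
  unfold WeierstrassCurve.LFunction WeierstrassCurve.localEulerFactor
  congr 1
  funext v
  rw [card_res]
  rfl

theorem fdata {σ : ℝ} (hσ : 2 < σ) : FData (fun v : HeightOneSpectrum (𝓞 K) => nm v)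
    (locPS E) σ where
  two_le := two_le_nm
  north := northcott_nm
  const := fun v => by
    rw [← PowerSeries.coeff_zero_eq_constantCoeff, locPS_eq]
    exact (inv_coeff (aV E v) (eV E v)).1
  sum := by
    have hg : Summable fun n : ℕ => (3 / 4 : ℝ) ^ n :=
      summable_geometric_of_lt_one (by norm_num) (by norm_num)
    have h1 := ((nm_summable (K := K) (x := σ - 1) (by linarith)).mul_left (3 / 2)).mul_of_nonneg hg
      (fun v => by positivity) (fun n => by positivity)
    refine Summable.of_nonneg_of_le (fun x => by positivity) (fun x => ?_) h1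
    obtain ⟨v, n⟩ := x
    simp only
    have hq2 : (2 : ℝ) ≤ nm v := by exact_mod_cast two_le_nm v
    have hq0 : (0 : ℝ) < nm v := by linarith
    have h2 := inv_bound (q := nm v) (aV_le E v) (eV_le E v) (n + 1)
    rw [← locPS_eq] at h2
    have h3 : |(((locPS E v).coeff (n + 1) : ℤ) : ℝ)| ≤ ((nm v : ℝ) + 1) ^ (n + 1) := by
      exact_mod_cast h2
    have h4 : (nm v : ℝ) ^ (-(σ * (n + 1))) = ((nm v : ℝ) ^ (-σ)) ^ (n + 1) := by
      rw [← Real.rpow_natCast, ← Real.rpow_mul hq0.le]
      congr 1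
      push_cast
      ring
    rw [h4]
    set y := (nm v : ℝ) ^ (-(σ - 1)) with hy
    have hy0 : 0 ≤ y := by positivity
    have h5 : (nm v : ℝ) ^ (-σ) = (nm v : ℝ)⁻¹ * y := by
      rw [hy, ← Real.rpow_neg_one, ← Real.rpow_add hq0]
      congr 1
      ring
    have hy1 : y ≤ 1 / 2 := by
      calc y ≤ (nm v : ℝ) ^ (-1 : ℝ) :=
            Real.rpow_le_rpow_of_exponent_le (by linarith) (by linarith)
        _ = (nm v : ℝ)⁻¹ := Real.rpow_neg_one _
        _ ≤ 2⁻¹ := inv_anti₀ (by norm_num) hq2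
        _ = 1 / 2 := by norm_num
    rw [h5]
    have h6 : ((nm v : ℝ) + 1) * (nm v : ℝ)⁻¹ ≤ 3 / 2 := by
      rw [mul_inv_le_iff₀ hq0]
      linarith
    calc |(((locPS E v).coeff (n + 1) : ℤ) : ℝ)| * ((nm v : ℝ)⁻¹ * y) ^ (n + 1) ≤
        ((nm v : ℝ) + 1) ^ (n + 1) * ((nm v : ℝ)⁻¹ * y) ^ (n + 1) := by gcongr
      _ = (((nm v : ℝ) + 1) * (nm v : ℝ)⁻¹ * y) ^ (n + 1) := by rw [← mul_pow]; ring
      _ ≤ (3 / 2 * y) ^ (n + 1) := by gcongr
      _ = 3 / 2 * y * (3 / 2 * y) ^ n := by rw [pow_succ]; ring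
      _ ≤ 3 / 2 * y * (3 / 4) ^ n := by
        gcongr
        linarith

/-- **the Euler product of the `L`-series of a Weierstrass curve over a number field** -/
theorem LSeries_hasProd {s : ℂ} (hs : 2 < s.re) :
    LSeriesSummable ((fun n : ℤ => (n : ℂ)) ∘ E.LFunction) s ∧
    HasProd (fun v : HeightOneSpectrum (𝓞 K) =>
      (1 - (aV E v : ℂ) * (nm v : ℂ) ^ (-s) + (eV E v : ℂ) * ((nm v : ℂ) ^ (-s)) ^ 2)⁻¹)
      (E.LSeries s) := by
  have h1 := (fdata E hs).main (s := s) le_rfl
  rw [← LFunction_eq] at h1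
  have h2 : (toC E.LFunction) = (fun n : ℤ => (n : ℂ)) ∘ E.LFunction := rfl
  have h3 : (fun v : HeightOneSpectrum (𝓞 K) =>
      (1 - (aV E v : ℂ) * (nm v : ℂ) ^ (-s) + (eV E v : ℂ) * ((nm v : ℂ) ^ (-s)) ^ 2)⁻¹) =
      fun v => ∑' k : ℕ, ((locPS E v).coeff k : ℂ) * ((nm v : ℂ) ^ (-s)) ^ k := by
    funext v
    obtain ⟨e0, e1, e2⟩ := inv_coeff (aV E v) (eV E v)
    rw [← locPS_eq] at e0 e1 e2
    refine (rec_sum (c := fun k => (locPS E v).coeff k) e0 e1 e2 ?_).symm
    have h4 := (fdata E hs).single v (τ := s.re) le_rfl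
    refine Summable.of_norm_bounded h4 fun k => ?_
    have hq0 : (0 : ℝ) ≤ nm v := by positivity
    rw [norm_mul, norm_pow, Complex.norm_intCast,
      Complex.norm_natCast_cpow_of_pos (by have := two_le_nm v; omega)]
    apply le_of_eq
    congr 1
    rw [Complex.neg_re, ← Real.rpow_natCast, ← Real.rpow_mul hq0]
    congr 1
    ring
  rw [h3]
  exact ⟨by rw [← h2]; exact h1.1, h1.2⟩

end Pool.Agent.W189.NF
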